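import Pool.Agent.Run7.h536.CE11
import Pool.Agent.TH894.SM0

/-!
# The number of solutions of `φ(n - x) + 1 = n - x`, `φ(n + x) + 1 = n + x` for all `n` near `F(m)`: `m` in ALL residue
classes to almost all moduli up to `N ^ (1 - ε)`, ALL polynomials `F`; thin leading and ARBITRARY other coefficients

Part (2) of the theorem: let `q` run through an arbitrary set of moduli `q ≤ Q`, of relative density at least a power of
`1 / log X`. For almost all these `q`, for ALL residue classes `a` modulo `q` and ALL polynomials `F` of degree `d ≥ 2` with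
a given leading coefficient (of the natural size; for example `F(m) = m ^ d`), and for almost all the `m = q t + a`,
`1 ≤ t ≤ X`, ALL the integers `n` at a distance of at most a power of `log X` from `F(m)` have the number of solutions
predicted by Hardy and Littlewood, in all windows. Here `Q` and `X` are of polynomially comparable size, so that for
`N = Q X`, the size of `m`, the modulus may be as large as `N ^ (1 - ε)`; the `N ^ ε` values `F(m)` in a class are a set of
density `N ^ (ε - d)`. The class and the polynomial may be chosen by an adversary who knows `q`.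

Part (1): the same for the values `f(m)` of polynomials whose leading coefficients form a thin family (a family of nearly
minimal additive energy of some order) while ALL the other coefficients are chosen by an adversary, where `m` runs through
the integers whose digits satisfy arbitrary restrictions.

Proof. The new ingredient is a bound for the additive energy of families of polynomial values with thin leading and
arbitrary other coefficients (`Pool.Agent.Run7.h536.CE1` to `CE4`): a Weyl inequality for integers with restricted digits,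
which bounds the exponential sum over `m` by the distances of the multiples of the leading coefficient from the
rationals, and the moments of these bounds over the thin family. The exceptional set for Goldbach pairs near the members
of a family of nearly minimal energy is from the starting files (`R459.near_even`).

Definition used from `Pool.Agent.H560R3.GB` (starting files): `sing m`: the singular series
`2 C₂ ∏_{p ∣ m, p > 2} (p - 1) / (p - 2)`, where `C₂` is the twin prime constant `∏_{p > 2} (1 - 1 / (p - 1) ^ 2)`.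
-/

set_option autoImplicit false

namespace Pool.Agent.Results.MP_967f73_nt.AllClassesAllPolynomials

open Finset Polynomial
open Pool.Agent.H560R3.GB (sing)

/-- The additive energy of order `h` of a finite family of integers `v i`: the number of solutions of
`v (a 1) + ... + v (a h) = v (b 1) + ... + v (b h)`. -/
noncomputable def energy (h : ℕ) {ι : Type} [Fintype ι] (v : ι → ℤ) : ℕ :=
  Nat.card {q : (Fin h → ι) × (Fin h → ι) // ∑ j, v (q.1 j) = ∑ j, v (q.2 j)}

/-- The integers `m < b ^ k` whose `i`-th digit in base `b` belongs to `D i`, for all `i < k`. -/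
def restricted (b : ℕ) (D : ℕ → Finset ℕ) (k : ℕ) : Finset ℕ :=
  (range (b ^ k)).filter (fun t : ℕ => ∀ i < k, t / b ^ i % b ∈ D i)

/-- `x` is an integral solution of the system `φ(n - x) + 1 = n - x`, `φ(n + x) + 1 = n + x`. -/
def IsSolution (n : ℕ) (x : ℤ) : Prop :=
  1 ≤ (n : ℤ) - x ∧ 1 ≤ (n : ℤ) + x ∧ (Nat.totient ((n : ℤ) - x).toNat : ℤ) + 1 = n - x ∧
    (Nat.totient ((n : ℤ) + x).toNat : ℤ) + 1 = n + x

/-- The number of the integral solutions `x` with `y₁ < n - x ≤ y₂`. -/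
noncomputable def sols (n y₁ y₂ : ℕ) : ℕ :=
  Nat.card {x : ℤ // ((y₁ : ℤ) < n - x ∧ (n : ℤ) - x ≤ y₂) ∧ IsSolution n x}

/-- For all `y₁ < y₂ ≤ 2 n` with `y₂ - y₁ ≥ 2 n / log ^ A (2 n)`, the number of the integral solutions `x` of the system
with `y₁ < n - x ≤ y₂` agrees with the prediction `sing (2 n) * (y₂ - y₁) / log ^ 2 (2 n)` of Hardy and Littlewood up to
a relative error of at most `ε` (for `y₁ = 0`, `y₂ = 2 n` these are all the solutions). -/
def Holds (ε : ℝ) (A n : ℕ) : Prop :=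
  ∀ y₁ y₂ : ℕ, y₁ < y₂ → y₂ ≤ 2 * n → ((2 * n : ℕ) : ℝ) / Real.log (2 * n : ℕ) ^ A ≤ (y₂ : ℝ) - y₁ →
    |(sols n y₁ y₂ : ℝ) - sing (2 * n) * ((y₂ : ℝ) - y₁) / Real.log (2 * n : ℕ) ^ 2| ≤
      ε * (sing (2 * n) * ((y₂ : ℝ) - y₁) / Real.log (2 * n : ℕ) ^ 2)

/-- `Holds` for all the integers `n > 0` at a distance of at most `log ^ W N` from `z`. -/
def Near (ε : ℝ) (A W N : ℕ) (z : ℤ) : Prop :=
  ∀ n : ℕ, 0 < n → |(((n : ℤ) - z : ℤ) : ℝ)| ≤ Real.log N ^ W → Holds ε A n

lemma totient_iff {m : ℕ} (hm : 0 < m) : (m.totient : ℤ) + 1 = m ↔ m.Prime := by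
  rw [← Nat.totient_eq_iff_prime hm]
  omega

lemma sols_eq (n y₁ y₂ : ℕ) : sols n y₁ y₂ = Pool.Agent.W93.PG.cnt (2 * n) y₁ y₂ := by
  have e0 : Pool.Agent.W93.PG.cnt (2 * n) y₁ y₂ =
    ((Ioc y₁ y₂).filter (fun p => p.Prime ∧ (2 * n - p).Prime)).card := rfl
  rw [e0, sols, ← Nat.card_eq_finsetCard]
  apply Nat.card_congr
  refine ⟨fun x => ⟨((n : ℤ) - x.1).toNat, ?_⟩, fun p => ⟨(n : ℤ) - p.1, ?_⟩, ?_, ?_⟩
  · obtain ⟨x, ⟨h1, h2⟩, h3, h4, h5, h6⟩ := x
    obtain ⟨a, ha⟩ : ∃ a : ℕ, (n : ℤ) - x = a := ⟨((n : ℤ) - x).toNat, by omega⟩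
    obtain ⟨b, hb⟩ : ∃ b : ℕ, (n : ℤ) + x = b := ⟨((n : ℤ) + x).toNat, by omega⟩
    rw [ha] at h1 h2 h3 h5
    rw [hb] at h4 h6
    rw [Int.toNat_natCast] at h5 h6
    have e : (2 * n - a : ℕ) = b := by omega
    simp only [mem_filter, mem_Ioc]
    rw [ha, Int.toNat_natCast, e]
    exact ⟨⟨by omega, by omega⟩, (totient_iff (by omega)).1 h5, (totient_iff (by omega)).1 h6⟩
  · obtain ⟨p, hp⟩ := p
    simp only [mem_filter, mem_Ioc] at hp
    obtain ⟨⟨h1, h2⟩, h3, h4⟩ := hp
    have e1 : (n : ℤ) - ((n : ℤ) - p) = p := by ring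
    have e2 : (n : ℤ) + ((n : ℤ) - p) = (2 * n - p : ℕ) := by
      have := h4.pos
      omega
    have := h4.pos
    have := h3.pos
    refine ⟨⟨by simp only; omega, by simp only; omega⟩, by simp only; omega, by simp only; omega, ?_, ?_⟩
    · rw [e1, Int.toNat_natCast]
      exact (totient_iff h3.pos).2 h3
    · rw [e2, Int.toNat_natCast]
      exact (totient_iff h4.pos).2 h4
  · intro x
    apply Subtype.ext
    have := x.2.1.1
    simp only
    omega
  · intro p
    apply Subtype.ext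
    simp only
    omega

lemma near_conv (ε : ℝ) (A W : ℕ) (ℓ : ℝ) (hℓ : 2 ≤ ℓ) (z : ℤ) (h : ∃ n : ℕ, 0 < n ∧ |(((n : ℤ) - z : ℤ) : ℝ)| ≤ ℓ ^ W ∧ ¬ Holds ε A n) :
    ∃ m : ℕ, 0 < m ∧ Even m ∧ |(((m : ℤ) - 2 * z : ℤ) : ℝ)| ≤ ℓ ^ (W + 1) ∧ ¬ (∀ n, m = 2 * n → Holds ε A n) := by
  obtain ⟨n, n0, n1, n2⟩ := h
  refine ⟨2 * n, by omega, even_two_mul n, ?_, fun h => n2 (h n rfl)⟩
  have e3 : (((2 * n : ℕ) : ℤ) - 2 * z : ℤ) = 2 * ((n : ℤ) - z) := by
    push_cast; ring
  rw [e3, Int.cast_mul, abs_mul, pow_succ, mul_comm (ℓ ^ W)]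
  apply mul_le_mul _ n1 (abs_nonneg _) (by linarith)
  norm_num
  exact hℓ

lemma two_le_log : ∃ n₀ : ℕ, ∀ N : ℕ, n₀ ≤ N → (2 : ℝ) ≤ Real.log (N : ℝ) := by
  refine ⟨8, fun N hN => ?_⟩
  have h8 : (8 : ℝ) ≤ (N : ℝ) := by exact_mod_cast hN
  rw [Real.le_log_iff_exp_le (by linarith)]
  have := Real.exp_one_lt_d9
  have e : Real.exp 2 = Real.exp 1 * Real.exp 1 := by rw [← Real.exp_add]; norm_num
  rw [e]
  nlinarith [Real.exp_pos 1]

open Classical in
/-- Let `A`, `B ≥ 1`, `C`, `W`, `U` and `ε > 0` be fixed.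

(1) Fix `b, d ≥ 2` and `h, r ≥ 1`. For all large `k`: let `H ≤ b ^ (r k)`, `b ^ k ≤ H ^ r`, `N = H b ^ (d k)`, let `D i`,
`i < k`, be ARBITRARY sets of at least two digits in base `b` and `S` the set of the `m < b ^ k` with the `i`-th digit in
`D i`, let `v i`, `i ∈ ι`, be an ARBITRARY family of integers, `|v i| ≤ B H`, with energy of order `h` at most
`log ^ C N` times the minimal size `#ι ^ (2 h) / H`, and `κ ≠ 0`. Then all `i ∈ ι` with at most `#ι / log ^ U N` exceptions
have the following property: for ALL polynomials `f` with integer coefficients of degree at most `d` with the coefficient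
`κ v i` at `x ^ d` (the other coefficients are ARBITRARY, they only have to satisfy `f(m) ≤ B N` for `m ∈ S`), for all but
at most `#S / log ^ U N` of the `m ∈ S`: ALL the integers `n > 0` at a distance of at most `log ^ W N` from `f(m)` satisfy:
for all `y₁ < y₂ ≤ 2 n` with `y₂ - y₁ ≥ 2 n / log ^ A (2 n)`, the number of the integral solutions `x` of the system
`φ(n - x) + 1 = n - x`, `φ(n + x) + 1 = n + x` with `y₁ < n - x ≤ y₂` agrees with the prediction of Hardy and Littlewood
up to a relative error of at most `ε`.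

(2) Fix `d ≥ 2` and `r ≥ 1`. For all large `X`: let `Q ≤ X ^ r`, `X ≤ Q ^ r`, let `T` be ANY set of at least
`Q / log ^ C X` positive integers up to `Q` and `κ ≠ 0`. Then all `q ∈ T` with at most `#T / log ^ U X` exceptions have the
following property: for ALL integers `a` and ALL polynomials `F` with integer coefficients of degree at most `d` with
coefficient `κ` at `x ^ d`, such that `F(q t + a) ≤ B (Q X) ^ d` for `0 ≤ t < 2 X`, for all but at most `X / log ^ U X` of
the `1 ≤ t ≤ X`: ALL the integers `n > 0` at a distance of at most `log ^ W X` from `F(q t + a)` have the property in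
part (1). -/
theorem result (A B C W U : ℕ) (hB : 1 ≤ B) (ε : ℝ) (hε : 0 < ε) :
    (∀ b d h r : ℕ, 2 ≤ b → 2 ≤ d → 1 ≤ h → 1 ≤ r →
      ∃ k₀ : ℕ, ∀ k : ℕ, k₀ ≤ k → ∀ H : ℕ, H ≤ b ^ (r * k) → b ^ k ≤ H ^ r →
      ∀ D : ℕ → Finset ℕ, (∀ i < k, D i ⊆ range b ∧ 2 ≤ (D i).card) →
      ∀ (ι : Type) [Fintype ι] (v : ι → ℤ), (∀ i, |v i| ≤ B * H) →
      (energy h v : ℝ) * H ≤ Real.log ((H * b ^ (d * k) : ℕ) : ℝ) ^ C * (Fintype.card ι : ℝ) ^ (2 * h) →
      ∀ κ : ℤ, κ ≠ 0 →
      ((univ.filter (fun i : ι => ∃ f : ℤ[X], f.natDegree ≤ d ∧ f.coeff d = κ * v i ∧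
        (∀ m ∈ restricted b D k, f.eval (m : ℤ) ≤ B * ((H * b ^ (d * k) : ℕ) : ℤ)) ∧
        ((restricted b D k).card : ℝ) / Real.log ((H * b ^ (d * k) : ℕ) : ℝ) ^ U <
          ((restricted b D k).filter (fun m : ℕ => ¬ Near ε A W (H * b ^ (d * k)) (f.eval (m : ℤ)))).card)).card : ℝ) ≤
        Fintype.card ι / Real.log ((H * b ^ (d * k) : ℕ) : ℝ) ^ U) ∧
    (∀ d r : ℕ, 2 ≤ d → 1 ≤ r →
      ∃ x₀ : ℕ, ∀ X : ℕ, x₀ ≤ X → ∀ Q : ℕ, Q ≤ X ^ r → X ≤ Q ^ r →
      ∀ T : Finset ℕ, T ⊆ Icc 1 Q → (Q : ℝ) ≤ Real.log X ^ C * T.card → ∀ κ : ℤ, κ ≠ 0 →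
      ((T.filter (fun q : ℕ => ∃ a : ℤ, ∃ F : ℤ[X], F.natDegree ≤ d ∧ F.coeff d = κ ∧
        (∀ t ∈ range (2 * X), F.eval (q * (t : ℤ) + a) ≤ B * (((Q * X) ^ d : ℕ) : ℤ)) ∧
        (X : ℝ) / Real.log X ^ U <
          ((Icc 1 X).filter (fun t : ℕ => ¬ Near ε A W X (F.eval (q * (t : ℤ) + a)))).card)).card : ℝ) ≤
        T.card / Real.log X ^ U) := by
  have hP : ∀ m : ℕ, 3 ≤ m → 2 ∣ m → Pool.Agent.W93.PG.WinP ε A m → (∀ n, m = 2 * n → Holds ε A n) := by
    intro m hm h2 hw n hn
    subst hn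
    intro y₁ y₂ h12 hy hlen
    have h1 := hw y₁ y₂ h12 hy hlen
    rwa [← sols_eq n y₁ y₂] at h1
  obtain ⟨nl, hnl⟩ := two_le_log
  constructor
  · intro b d h r hb hd hh hr
    obtain ⟨k0, h0⟩ := Pool.Agent.Run7.h536.CE.near_cross b hb d hd h (d * r + 1) (2 * B) C A (W + 1) U 3 hh (by nlinarith) (by omega)
      ε hε (fun m => ∀ n, m = 2 * n → Holds ε A n) hP
    refine ⟨k0 + nl + 1, fun k hk H hH1 hH2 D hD ι _ v hv hE κ hκ => ?_⟩
    have hHpos : 1 ≤ H := by
      rcases Nat.eq_zero_or_pos H with h0 | h0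
      · rw [h0, zero_pow (by omega)] at hH2
        have : 1 ≤ b ^ k := Nat.one_le_pow _ _ (by omega)
        omega
      · exact h0
    have hkN : nl ≤ H * b ^ (d * k) := by
      calc nl ≤ d * k := by nlinarith
        _ ≤ b ^ (d * k) := (Nat.lt_pow_self (by omega)).le
        _ = 1 * b ^ (d * k) := (one_mul _).symm
        _ ≤ _ := Nat.mul_le_mul_right _ hHpos
    have hl2 := hnl _ hkN
    have key := h0 k (by omega) H (by
        rw [Nat.add_sub_cancel, ← pow_mul]
        refine hH1.trans (Nat.pow_le_pow_right (by omega) ?_)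
        calc r * k = 1 * k * (1 * r) := by ring
          _ ≤ d * k * (d * r) := Nat.mul_le_mul (Nat.mul_le_mul_right _ (by omega)) (Nat.mul_le_mul_right _ (by omega))) (by
        rw [Nat.add_sub_cancel, mul_comm d k, pow_mul, mul_comm d r, pow_mul]
        exact Nat.pow_le_pow_left hH2 _) D hD ι v (fun i => (hv i).trans (by
        push_cast
        nlinarith [mul_nonneg (Int.natCast_nonneg B) (Int.natCast_nonneg H)])) hE (2 * κ) (by omega)
    refine le_trans (Nat.cast_le.2 (card_le_card ?_)) key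
    intro i hi
    rw [mem_filter] at hi ⊢
    obtain ⟨_, f, hf1, hf2, hf3, hf4⟩ := hi
    refine ⟨mem_univ _, Polynomial.C 2 * f, (natDegree_C_mul_le _ _).trans hf1, ?_, ?_, ?_⟩
    · rw [coeff_C_mul, hf2]
      ring
    · intro m hm
      rw [eval_mul, eval_C]
      have := hf3 m hm
      push_cast at this ⊢
      linarith
    · refine lt_of_lt_of_le hf4 (Nat.cast_le.2 (card_le_card ?_))
      intro m hm
      rw [mem_filter] at hm
      obtain ⟨hm1, hm2⟩ := hm
      unfold Near at hm2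
      push Not at hm2
      obtain ⟨m', c1, c2, c3, c4⟩ := near_conv ε A W _ hl2 (f.eval (m : ℤ)) hm2
      have hmem : m ∈ (Pool.Agent.TH872.Sq.SD b D k) := hm1
      rw [mem_filter]
      refine ⟨hmem, m', c1, c2, ?_, c4⟩
      rw [eval_mul, eval_C]
      exact c3
  · intro d r hd hr
    obtain ⟨x0, h0⟩ := Pool.Agent.Run7.h536.CE.near_ap d hd r (2 * B) C A (W + 1) U 3 hr (by omega) ε hε
      (fun m => ∀ n, m = 2 * n → Holds ε A n) hP
    refine ⟨x0 + nl, fun X hX Q hQ1 hQ2 T hT hTQ κ hκ => ?_⟩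
    have hl2 := hnl X (by omega)
    have key := h0 X (by omega) Q hQ1 hQ2 T hT hTQ (2 * κ) (by omega)
    refine le_trans (Nat.cast_le.2 (card_le_card ?_)) key
    intro q hq
    rw [mem_filter] at hq ⊢
    obtain ⟨hqT, a, F, hF1, hF2, hF3, hF4⟩ := hq
    refine ⟨hqT, Polynomial.C 2 * F, a, (natDegree_C_mul_le _ _).trans hF1, ?_, ?_, ?_⟩
    · rw [coeff_C_mul, hF2]
    · intro m hm
      rw [eval_mul, eval_C]
      have := hF3 m hm
      push_cast at this ⊢
      linarith
    · refine lt_of_lt_of_le hF4 (Nat.cast_le.2 (card_le_card ?_))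
      intro m hm
      rw [mem_filter] at hm ⊢
      obtain ⟨hm1, hm2⟩ := hm
      unfold Near at hm2
      push Not at hm2
      obtain ⟨m', c1, c2, c3, c4⟩ := near_conv ε A W _ hl2 (F.eval (q * (m : ℤ) + a)) hm2
      refine ⟨hm1, m', c1, c2, ?_, c4⟩
      rw [eval_mul, eval_C]
      exact c3

end Pool.Agent.Results.MP_967f73_nt.AllClassesAllPolynomials
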