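import Pool.Agent.Run7.h582.FD.Law
import Pool.Agent.Run7.h582.FD.Decay
import Pool.Agent.R459.Nbhd

/-!
# Goldbach in totient form: the exceptional set has Fourier dimension zero

Let `lam n ≥ exp (n ^ η)` and `c n ≤ B * lam n` be arbitrary real sequences, for instance `lam n = b ^ n`,
`c n = 0`.  A real number `x` is called generic if for all `W`, `A` and `ε > 0` and for all large `n`, ALL the
integers `m` at a distance of at most `(log (lam n)) ^ W` from `lam n * x + c n` satisfy the asymptotic formula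
of Hardy and Littlewood for the number of the integral solutions `z` of the system
`φ(m - z) + 1 = m - z`, `φ(m + z) + 1 = m + z` in every window of a length of at least `2 m / (log 2 m) ^ A`.

Almost every `x` is generic with respect to EVERY finite Borel measure on the line whose Fourier transform belongs
to some `L ^ p`, `p < ∞`, in particular with respect to every measure with a Fourier transform
`O (|ξ| ^ (-δ))`: the set of the real numbers which are not generic has Fourier dimension `0`.  (Such measures live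
on Salem sets of every positive dimension, on the badly approximable numbers with partial quotients `≤ 2`, and on
the well approximable numbers.)

The proof: the `2 h`-fold additive energy of such a measure is minimal up to a constant; the starting theorem on
Goldbach representations near the members of finite families of integers of nearly minimal energy
(`Pool.Agent.R459.near_double`) passes to the distribution of `⌊lam n * x + c n⌋`; Borel-Cantelli.
-/

set_option autoImplicit false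

namespace Pool.Agent.Results.MP_967f73_nt.FourierDimensionZero

open Finset MeasureTheory Filter
open Pool.Agent.H560R3.GB (sing)

/-- `z` is an integral solution of the system `φ(n - z) + 1 = n - z`, `φ(n + z) + 1 = n + z`. -/
def Solution (n : ℕ) (z : ℤ) : Prop :=
  1 ≤ (n : ℤ) - z ∧ 1 ≤ (n : ℤ) + z ∧ (Nat.totient ((n : ℤ) - z).toNat : ℤ) + 1 = (n : ℤ) - z ∧
    (Nat.totient ((n : ℤ) + z).toNat : ℤ) + 1 = (n : ℤ) + z

open Classical in
/-- the number of solutions `y₁ < z ≤ y₂` -/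
noncomputable def count (n : ℕ) (y₁ y₂ : ℤ) : ℕ := ((Ioc y₁ y₂).filter (fun z => Solution n z)).card

/-- the prediction of Hardy and Littlewood for it (`sing` is the singular series of the Goldbach problem) -/
noncomputable def predicted (n : ℕ) (y₁ y₂ : ℤ) : ℝ := sing (2 * n) * ((y₂ : ℝ) - y₁) / Real.log (2 * n) ^ 2

/-- `n < 2`, or the prediction holds with the relative error `ε` in every interval `(y₁, y₂] ⊆ [-n, n]` of
length at least `2 n / (log 2 n) ^ A`. -/
def Formula (ε : ℝ) (A n : ℕ) : Prop :=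
  2 ≤ n → ∀ y₁ y₂ : ℤ, -(n : ℤ) ≤ y₁ → y₁ < y₂ → y₂ ≤ n → (2 * n : ℝ) / Real.log (2 * n) ^ A ≤ (y₂ : ℝ) - y₁ →
    |(count n y₁ y₂ : ℝ) - predicted n y₁ y₂| ≤ ε * predicted n y₁ y₂

/-- For all `W`, `A` and `ε > 0`, and for all large `n`, the formula holds for all the integers `m ≥ 0` at a
distance of at most `(log (lam n)) ^ W` from `lam n * x + c n`. -/
def Generic (lam c : ℕ → ℝ) (x : ℝ) : Prop :=
  ∀ W A : ℕ, ∀ ε : ℝ, 0 < ε → ∀ᶠ n : ℕ in atTop, ∀ m : ℕ,
    |(m : ℝ) - (lam n * x + c n)| ≤ Real.log (lam n) ^ W → Formula ε A m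

/-- The finite Borel measure `μ` has a Fourier transform `O ((1 + |ξ|) ^ (-δ))`, `δ > 0`. -/
def FourierDecay (μ : Measure ℝ) : Prop :=
  ∃ C δ : ℝ, 0 < δ ∧ ∀ ξ : ℝ, ‖∫ x : ℝ, Complex.exp (((ξ * x : ℝ) : ℂ) * Complex.I) ∂μ‖ ≤ C * (1 + |ξ|) ^ (-δ)

/-- `E` has Fourier dimension `0` in the strong sense: `E` is a null set of every finite measure whose Fourier
transform decays like a power. -/
def FourierNull (E : Set ℝ) : Prop := ∀ μ : Measure ℝ, IsFiniteMeasure μ → FourierDecay μ → μ E = 0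

lemma tot_prime (m : ℕ) (h1 : 1 ≤ m) (h : m.totient + 1 = m) : m.Prime := by
  have h2 : 2 ≤ m := by
    rcases Nat.lt_or_ge m 2 with h3 | h3
    · have : m = 1 := by omega
      rw [this, Nat.totient_one] at h
      omega
    · exact h3
  exact (Nat.totient_eq_iff_prime (by omega)).1 (by omega)

lemma sol_iff (n : ℕ) (x : ℤ) (hx1 : -(n : ℤ) < x) (hx2 : x ≤ n) :
    Solution n x ↔ ((n : ℤ) + x).toNat.Prime ∧ (2 * n - ((n : ℤ) + x).toNat).Prime := by
  obtain ⟨u, hu⟩ : ∃ u : ℕ, (u : ℤ) = (n : ℤ) + x := ⟨((n : ℤ) + x).toNat, by omega⟩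
  obtain ⟨v, hv⟩ : ∃ v : ℕ, (v : ℤ) = (n : ℤ) - x := ⟨((n : ℤ) - x).toNat, by omega⟩
  have hu' : ((n : ℤ) + x).toNat = u := by omega
  have hv' : ((n : ℤ) - x).toNat = v := by omega
  have huv : 2 * n - u = v := by omega
  unfold Solution
  rw [hu', hv', huv, ← hu, ← hv]
  constructor
  · rintro ⟨h1, h2, h3, h4⟩
    exact ⟨tot_prime u (by omega) (by omega), tot_prime v (by omega) (by omega)⟩
  · rintro ⟨h1, h2⟩
    have a1 := h1.one_lt
    have a2 := h2.one_lt
    refine ⟨by omega, by omega, ?_, ?_⟩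
    · rw [Nat.totient_prime h2]
      omega
    · rw [Nat.totient_prime h1]
      omega

lemma cnt_eq (n : ℕ) (y₁ y₂ : ℤ) (u₁ u₂ : ℕ) (h1 : -(n : ℤ) ≤ y₁) (h3 : y₂ ≤ n) (hu1 : (u₁ : ℤ) = (n : ℤ) + y₁)
    (hu2 : (u₂ : ℤ) = (n : ℤ) + y₂) : Pool.Agent.W93.PG.cnt (2 * n) u₁ u₂ = count n y₁ y₂ := by
  classical
  unfold Pool.Agent.W93.PG.cnt count
  refine card_bij (fun (p : ℕ) _ => (p : ℤ) - n) ?_ ?_ ?_
  · intro p hp
    rw [mem_filter, mem_Ioc] at hp
    obtain ⟨⟨a1, a2⟩, a3, a4⟩ := hp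
    rw [mem_filter, mem_Ioc]
    refine ⟨⟨by omega, by omega⟩, ?_⟩
    rw [sol_iff n _ (by omega) (by omega)]
    have : ((n : ℤ) + ((p : ℤ) - n)).toNat = p := by omega
    rw [this]
    exact ⟨a3, a4⟩
  · intro p _ p' _ hpp
    omega
  · intro x hx
    rw [mem_filter, mem_Ioc] at hx
    obtain ⟨⟨b1, b2⟩, b3⟩ := hx
    rw [sol_iff n _ (by omega) (by omega)] at b3
    refine ⟨((n : ℤ) + x).toNat, ?_, by omega⟩
    rw [mem_filter, mem_Ioc]
    exact ⟨⟨by omega, by omega⟩, b3⟩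

lemma formula_of {ε : ℝ} {A n : ℕ} (h : Pool.Agent.W93.PG.WinP ε A (2 * n)) : Formula ε A n := by
  intro _ y₁ y₂ h1 h2 h3 h4
  obtain ⟨u₁, hu1⟩ : ∃ u : ℕ, (u : ℤ) = (n : ℤ) + y₁ := ⟨((n : ℤ) + y₁).toNat, by omega⟩
  obtain ⟨u₂, hu2⟩ : ∃ u : ℕ, (u : ℤ) = (n : ℤ) + y₂ := ⟨((n : ℤ) + y₂).toNat, by omega⟩
  have hu1r : (u₁ : ℝ) = n + y₁ := by exact_mod_cast hu1
  have hu2r : (u₂ : ℝ) = n + y₂ := by exact_mod_cast hu2
  have e2 : (u₂ : ℝ) - u₁ = (y₂ : ℝ) - y₁ := by rw [hu1r, hu2r]; ring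
  have h6 := h u₁ u₂ (by omega) (by omega) (by
    rw [e2]
    push_cast
    exact h4)
  rw [e2, cnt_eq n y₁ y₂ u₁ u₂ h1 h3 hu1 hu2] at h6
  push_cast at h6
  exact h6

lemma formula_mono {ε ε' : ℝ} (hε : ε ≤ ε') {A n : ℕ} (h : Formula ε A n) : Formula ε' A n := by
  intro hn y₁ y₂ h1 h2 h3 h4
  refine (h hn y₁ y₂ h1 h2 h3 h4).trans ?_
  have h5 := Pool.Agent.W93.GB.one_le_sing (2 * n)
  have h6 : (0 : ℝ) ≤ predicted n y₁ y₂ := by
    unfold predicted
    have h7 : (0 : ℝ) ≤ (y₂ : ℝ) - y₁ := by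
      have : (y₁ : ℝ) < y₂ := by exact_mod_cast h2
      linarith
    positivity
  exact mul_le_mul_of_nonneg_right hε h6

lemma generic_one (lam c : ℕ → ℝ) (η : ℝ) (hη : 0 < η) (hlam : ∀ᶠ n : ℕ in atTop, Real.exp ((n : ℝ) ^ η) ≤ lam n)
    (B : ℝ) (hc : ∀ᶠ n : ℕ in atTop, c n ≤ B * lam n) (μ : Measure ℝ) [IsFiniteMeasure μ] (p : ℕ)
    (hp : Integrable (fun ξ => ‖charFun μ ξ‖ ^ p)) (W A : ℕ) (ε : ℝ) (hε : 0 < ε) :
    ∀ᵐ x ∂μ, ∀ᶠ n : ℕ in atTop, ∀ m : ℕ,
      |(m : ℝ) - (lam n * x + c n)| ≤ Real.log (lam n) ^ W → Formula ε A m := by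
  have hp1 : 1 ≤ p := by
    rcases Nat.eq_zero_or_pos p with h0 | h0
    · exfalso
      subst h0
      simp only [pow_zero] at hp
      rw [integrable_const_iff] at hp
      rcases hp with h3 | h3
      · exact one_ne_zero h3
      · rw [isFiniteMeasure_iff] at h3
        simp at h3
    · exact h0
  have key := Pool.Agent.Run7.h582.FD.ae_law p μ (Pool.Agent.Run7.h582.FD.pow_up μ p hp)
    (fun N v => ∃ n : ℕ, 0 < n ∧ |(((n : ℤ) - v : ℤ) : ℝ)| ≤ Real.log N ^ (W + 1) ∧ ¬ Formula ε A n)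
    (fun B U => Pool.Agent.R459.near_double p A B 1 (W + 1) U 0 hp1 ε hε (Formula ε A)
      (fun n _ hn => formula_of hn)) lam c η hη hlam B hc
  filter_upwards [key] with x hx
  have hlog : ∀ᶠ n : ℕ in atTop, 2 ≤ Real.log (lam n) := by
    have h1 : Tendsto (fun n : ℕ => (n : ℝ) ^ η) atTop atTop :=
      (tendsto_rpow_atTop hη).comp tendsto_natCast_atTop_atTop
    filter_upwards [hlam, h1.eventually_ge_atTop 2] with n h2 h3
    rw [Real.le_log_iff_exp_le ((Real.exp_pos _).trans_le h2)]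
    exact (Real.exp_le_exp.2 h3).trans h2
  filter_upwards [hx, hlog, hlam] with n h1 h2 h3 m hm
  by_contra hF
  apply h1
  have hl0 : 0 < lam n := (Real.exp_pos _).trans_le h3
  have hm0 : 0 < m := by
    rcases Nat.eq_zero_or_pos m with h0 | h0
    · exfalso
      apply hF
      intro h4
      omega
    · exact h0
  refine ⟨m, hm0, ?_, hF⟩
  obtain ⟨L, hL⟩ : ∃ L, L = Real.log (lam n) := ⟨_, rfl⟩
  rw [← hL] at h2 hm
  have hLN : L ≤ Real.log (⌈lam n⌉₊ : ℝ) := by
    rw [hL]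
    exact Real.log_le_log hl0 (Nat.le_ceil _)
  have h4 : |(((m : ℤ) - ⌊lam n * x + c n⌋ : ℤ) : ℝ)| ≤ L ^ W + 1 := by
    push_cast
    have e : (m : ℝ) - ⌊lam n * x + c n⌋ = ((m : ℝ) - (lam n * x + c n)) + Int.fract (lam n * x + c n) := by
      rw [Int.fract]
      ring
    rw [e]
    refine (abs_add_le _ _).trans ?_
    have h5 := Int.fract_nonneg (lam n * x + c n)
    have h6 := Int.fract_lt_one (lam n * x + c n)
    rw [abs_of_nonneg h5]
    linarith
  have h5 : (1 : ℝ) ≤ L ^ W := one_le_pow₀ (by linarith)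
  calc |(((m : ℤ) - ⌊lam n * x + c n⌋ : ℤ) : ℝ)| ≤ L ^ W + 1 := h4
    _ ≤ L ^ W * L := by nlinarith
    _ = L ^ (W + 1) := by rw [pow_succ]
    _ ≤ Real.log (⌈lam n⌉₊ : ℝ) ^ (W + 1) := pow_le_pow_left₀ (by linarith) hLN _

lemma generic_ae (lam c : ℕ → ℝ) (η : ℝ) (hη : 0 < η) (hlam : ∀ᶠ n : ℕ in atTop, Real.exp ((n : ℝ) ^ η) ≤ lam n)
    (B : ℝ) (hc : ∀ᶠ n : ℕ in atTop, c n ≤ B * lam n) (μ : Measure ℝ) [IsFiniteMeasure μ] (p : ℕ)
    (hp : Integrable (fun ξ => ‖charFun μ ξ‖ ^ p)) : ∀ᵐ x ∂μ, Generic lam c x := by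
  have h1 : ∀ W A k : ℕ, ∀ᵐ x ∂μ, ∀ᶠ n : ℕ in atTop, ∀ m : ℕ,
      |(m : ℝ) - (lam n * x + c n)| ≤ Real.log (lam n) ^ W → Formula (1 / ((k : ℝ) + 1)) A m :=
    fun W A k => generic_one lam c η hη hlam B hc μ p hp W A _ (by positivity)
  simp only [← ae_all_iff] at h1
  filter_upwards [h1] with x hx W A ε hε
  obtain ⟨k, hk⟩ := exists_nat_one_div_lt hε
  filter_upwards [hx W A k] with n hn m hm
  exact formula_mono hk.le (hn m hm)

/-- Let `lam n ≥ exp (n ^ η)` for large `n`, where `η > 0`, and let `c n ≤ B * lam n` for large `n`. (1) With respect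
to every finite Borel measure on the line whose Fourier transform `ξ ↦ ∫ exp (i ξ x) dμ (x)` has an integrable
power, almost every `x` is generic. (2) The set of the real numbers which are not generic is a null set for every
finite Borel measure whose Fourier transform decays like a power: its Fourier dimension is zero. -/
theorem result (lam c : ℕ → ℝ) (η : ℝ) (hη : 0 < η)
    (hlam : ∀ᶠ n : ℕ in atTop, Real.exp ((n : ℝ) ^ η) ≤ lam n) (B : ℝ) (hc : ∀ᶠ n : ℕ in atTop, c n ≤ B * lam n) :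
    (∀ μ : Measure ℝ, IsFiniteMeasure μ →
      (∃ p : ℕ, Integrable (fun ξ : ℝ => ‖∫ x : ℝ, Complex.exp (((ξ * x : ℝ) : ℂ) * Complex.I) ∂μ‖ ^ p)) →
      ∀ᵐ x ∂μ, Generic lam c x) ∧
    FourierNull {x : ℝ | ¬ Generic lam c x} := by
  have e : ∀ μ : Measure ℝ, ∀ ξ : ℝ, ∫ x : ℝ, Complex.exp (((ξ * x : ℝ) : ℂ) * Complex.I) ∂μ = charFun μ ξ := by
    intro μ ξ
    rw [charFun_apply_real]
    push_cast
    rfl
  constructor
  · intro μ hμ ⟨p, hp⟩
    simp only [e] at hp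
    exact generic_ae lam c η hη hlam B hc μ p hp
  · intro μ hμ ⟨C, δ, hδ, h⟩
    simp only [e] at h
    obtain ⟨p, hp⟩ := Pool.Agent.Run7.h582.FD.pow_of_decay μ C δ hδ h
    exact generic_ae lam c η hη hlam B hc μ p hp

end Pool.Agent.Results.MP_967f73_nt.FourierDimensionZero
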