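import Pool.Agent.Run7.h702.DV.Gold
import Pool.Agent.Run7.h702.DV.PairC
import Pool.Agent.Run7.h702.CL.Gold
import Pool.Agent.Run7.h702.AT.F

/-!
# The totient form of Goldbach's conjecture for all the terms of almost every Collatz trajectory, and for the sums of two
divisors of almost every integer

(1), (2) Let `f` be any function which tends to infinity. For almost all `m` (natural density) the trajectory of `m` under
the Collatz map takes a value smaller than `f m`, and for *every* term `t` before the first such value and every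
`1 ≤ u ≤ (log t)^U` the number `n = u t` has the expected number of integral solutions `x` of the system
`φ(n - x) + 1 = n - x`, `φ(n + x) + 1 = n + x`, in every window of a length of at least `2 n / (log 2 n)^W`. All but at most
`K N / (log Y)^A` of the `m ≤ N` have this property up to the first value smaller than `Y`.

(3) For almost all positive integers `m`: for ALL pairs of divisors `d₁, d₂` of `m` and all integers
`α ≠ 0`, `β ≠ 0`, `c` of at most logarithmic size the same is true for the number `2 n = α d₁ + β d₂ + c`, if it is even and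
positive and the divisors are not both bounded. The proportion of the exceptional `m`, when only pairs with
`max (d₁, d₂) ≥ y` are considered, is at most `(log y)^(-A)`, uniformly.

Definition used (in `Pool.Agent.H560R3.GB`): `sing v = 2 C₂ ∏_{p ∣ v, p > 2} (p - 1) / (p - 2)`, the singular series,
where `C₂ = ∏_{p > 2} (1 - 1 / (p - 1) ^ 2)`.

Proof. (1), (2): by the class theorem (`R460/GH`) the exceptional `n` are rare in the residue classes modulo the powers of
`3`; the mixing of the Syracuse random variables at fine scales (starting libraries `H499R2`, `R344/TH`) carries this from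
the lowest scales to all scales (`Run7/h702/AT`). (3): write `d₁ = g u`, `d₂ = g v` with coprime `u ≥ v`; then `m` is a
multiple of `g u v`, and `2 n = g (α u + β v) + c` lies in the residue class of `c` modulo `g` and modulo
`k = |α u + β v|`. If `g ≤ u` the numbers `g, v` are fixed and `u` varies, if `g > u` the numbers `u, v` are fixed and `g`
varies (`Run7/h702/DV/Pair`). In both cases the modulus is at most the power `1 / 2 + o(1)` of the size of the numbers,
and the theorems of the starting library on the exceptional set in the residue classes of every modulus (`R460/GH`, for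
`c ≠ 0`) and among the multiples of the moduli without divisors in a very sparse set (`Y883/T3`, for `c = 0`) apply.
-/

set_option autoImplicit false

namespace Pool.Agent.Results.MP_967f73_nt.SumsOfTwoDivisors

open Finset Filter Topology
open Pool.Agent.H560R3.GB (sing)

/-- `x` is an integral solution of the system `φ(n - x) + 1 = n - x`, `φ(n + x) + 1 = n + x`. -/
def Solution (n : ℕ) (x : ℤ) : Prop :=
  1 ≤ (n : ℤ) - x ∧ 1 ≤ (n : ℤ) + x ∧ (Nat.totient ((n : ℤ) - x).toNat : ℤ) + 1 = (n : ℤ) - x ∧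
    (Nat.totient ((n : ℤ) + x).toNat : ℤ) + 1 = (n : ℤ) + x

open Classical in
/-- the number of solutions `y₁ < x ≤ y₂` -/
noncomputable def count (n : ℕ) (y₁ y₂ : ℤ) : ℕ := ((Ioc y₁ y₂).filter (fun x => Solution n x)).card

/-- In every interval `(y₁, y₂] ⊆ [-n, n]` of length at least `2 n / (log 2 n)^W` the number of solutions is
`sing (2 n) (y₂ - y₁) / (log 2 n)²` with a relative error of at most `ε`. -/
def Good (ε : ℝ) (W n : ℕ) : Prop :=
  ∀ y₁ y₂ : ℤ, -(n : ℤ) ≤ y₁ → y₁ < y₂ → y₂ ≤ n → (2 * n : ℝ) / Real.log (2 * n) ^ W ≤ (y₂ : ℝ) - y₁ →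
    |(count n y₁ y₂ : ℝ) - sing (2 * n) * ((y₂ : ℝ) - y₁) / Real.log (2 * n) ^ 2| ≤
      ε * (sing (2 * n) * ((y₂ : ℝ) - y₁) / Real.log (2 * n) ^ 2)

/-- `m` has divisors `d₁, d₂`, not both smaller than `y`, and there are integers `α ≠ 0`, `β ≠ 0`, `c`, at most
`(log max (d₁, d₂))^B` in absolute value, with `α d₁ + β d₂ ≠ 0`, such that `α d₁ + β d₂ + c` is a positive even
number `2 n` and `n` is not good. -/
def Exceptional (ε : ℝ) (B W y m : ℕ) : Prop :=
  ∃ d₁ d₂ : ℕ, d₁ ∣ m ∧ d₂ ∣ m ∧ y ≤ max d₁ d₂ ∧ ∃ α β c : ℤ, α ≠ 0 ∧ β ≠ 0 ∧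
    |(α : ℝ)| ≤ Real.log (max d₁ d₂ : ℕ) ^ B ∧ |(β : ℝ)| ≤ Real.log (max d₁ d₂ : ℕ) ^ B ∧
    |(c : ℝ)| ≤ Real.log (max d₁ d₂ : ℕ) ^ B ∧ α * d₁ + β * d₂ ≠ 0 ∧
    ∃ n : ℕ, 0 < n ∧ α * d₁ + β * d₂ + c = 2 * n ∧ ¬ Good ε W n

lemma tot_prime (m : ℕ) (h1 : 1 ≤ m) (h : m.totient + 1 = m) : m.Prime := by
  have h2 : 2 ≤ m := by
    rcases Nat.lt_or_ge m 2 with h3 | h3
    · have : m = 1 := by omega
      rw [this, Nat.totient_one] at h
      omega
    · exact h3
  exact (Nat.totient_eq_iff_prime (by omega)).1 (by omega)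

lemma sol_iff (n : ℕ) (x : ℤ) (hx1 : -(n : ℤ) < x) (hx2 : x ≤ n) :
    Solution n x ↔ ((n : ℤ) + x).toNat.Prime ∧ (2 * n - ((n : ℤ) + x).toNat).Prime := by
  obtain ⟨u, hu⟩ : ∃ u : ℕ, (u : ℤ) = (n : ℤ) + x := ⟨((n : ℤ) + x).toNat, by omega⟩
  obtain ⟨v, hv⟩ : ∃ v : ℕ, (v : ℤ) = (n : ℤ) - x := ⟨((n : ℤ) - x).toNat, by omega⟩
  have hu' : ((n : ℤ) + x).toNat = u := by omega
  have hv' : ((n : ℤ) - x).toNat = v := by omega
  have huv : 2 * n - u = v := by omega
  unfold Solution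
  rw [hu', hv', huv, ← hu, ← hv]
  constructor
  · rintro ⟨h1, h2, h3, h4⟩
    exact ⟨tot_prime u (by omega) (by omega), tot_prime v (by omega) (by omega)⟩
  · rintro ⟨h1, h2⟩
    have a1 := h1.one_lt
    have a2 := h2.one_lt
    refine ⟨by omega, by omega, ?_, ?_⟩
    · rw [Nat.totient_prime h2]
      omega
    · rw [Nat.totient_prime h1]
      omega

lemma good_of_WinP (ε : ℝ) (W n : ℕ) (h : Pool.Agent.W93.PG.WinP ε W (2 * n)) : Good ε W n := by
  classical
  intro y₁ y₂ h1 h2 h3 h4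
  obtain ⟨u₁, hu1⟩ : ∃ u : ℕ, (u : ℤ) = (n : ℤ) + y₁ := ⟨((n : ℤ) + y₁).toNat, by omega⟩
  obtain ⟨u₂, hu2⟩ : ∃ u : ℕ, (u : ℤ) = (n : ℤ) + y₂ := ⟨((n : ℤ) + y₂).toNat, by omega⟩
  have hu1r : (u₁ : ℝ) = n + y₁ := by exact_mod_cast hu1
  have hu2r : (u₂ : ℝ) = n + y₂ := by exact_mod_cast hu2
  have e2 : (u₂ : ℝ) - u₁ = (y₂ : ℝ) - y₁ := by rw [hu1r, hu2r]; ring
  have h5 : ((2 * n : ℕ) : ℝ) / Real.log ((2 * n : ℕ) : ℝ) ^ W ≤ (u₂ : ℝ) - u₁ := by
    push_cast
    rw [e2]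
    exact h4
  have h6 := h u₁ u₂ (by omega) (by omega) h5
  push_cast at h6
  rw [e2] at h6
  have h7 : Pool.Agent.W93.PG.cnt (2 * n) u₁ u₂ = count n y₁ y₂ := by
    unfold Pool.Agent.W93.PG.cnt count
    refine card_bij (fun p _ => (p : ℤ) - n) ?_ ?_ ?_
    · intro p hp
      rw [mem_filter, mem_Ioc] at hp
      obtain ⟨⟨a1, a2⟩, a3, a4⟩ := hp
      have b1 : y₁ < (p : ℤ) - n := by omega
      have b2 : (p : ℤ) - n ≤ y₂ := by omega
      have b3 : Solution n ((p : ℤ) - n) := by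
        rw [sol_iff n _ (by omega) (by omega)]
        have : ((n : ℤ) + ((p : ℤ) - n)).toNat = p := by omega
        rw [this]
        exact ⟨a3, a4⟩
      rw [mem_filter, mem_Ioc]
      exact ⟨⟨b1, b2⟩, b3⟩
    · intro p _ p' _ hpp
      omega
    · intro x hx
      rw [mem_filter, mem_Ioc] at hx
      obtain ⟨⟨a1, a2⟩, a3⟩ := hx
      obtain ⟨p, hp⟩ : ∃ p : ℕ, (p : ℤ) = (n : ℤ) + x := ⟨((n : ℤ) + x).toNat, by omega⟩
      refine ⟨p, ?_, by omega⟩
      rw [mem_filter, mem_Ioc]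
      rw [sol_iff n x (by omega) (by omega)] at a3
      have : ((n : ℤ) + x).toNat = p := by omega
      rw [this] at a3
      exact ⟨⟨by omega, by omega⟩, a3⟩
  rw [h7] at h6
  exact h6

/-- The Collatz map. -/
def collatz (n : ℕ) : ℕ := if n % 2 = 0 then n / 2 else 3 * n + 1

/-- The Collatz trajectory of `m` takes a value smaller than `Y`, and for all its terms `t = T^j m` before some such value
and all `1 ≤ u ≤ (log t)^U` the number `u t` is good. -/
def AllTermsGood (ε : ℝ) (W U : ℕ) (Y : ℝ) (m : ℕ) : Prop :=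
  ∃ k : ℕ, ((collatz^[k] m : ℕ) : ℝ) < Y ∧ ∀ j < k, ∀ u : ℕ, 1 ≤ u → (u : ℝ) ≤ Real.log (collatz^[j] m : ℕ) ^ U →
    Good ε W (u * collatz^[j] m)

theorem win (ε : ℝ) (hε : 0 < ε) (W : ℕ) : Run7.h702.CL.Win (fun v => Good ε W (v / 2)) := by
  refine ⟨ε, hε, W, 0, fun n _ h2 hw => ?_⟩
  obtain ⟨k, rfl⟩ := h2
  have hk : 2 * k / 2 = k := by omega
  simp only [hk]
  exact good_of_WinP ε W k hw

theorem few (ε : ℝ) (hε : 0 < ε) (W : ℕ) : Run7.h702.CL.Few0 (2 / 3) (fun c => ((1 : ℕ) : ℤ) * c + 0)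
    (fun _ c => ¬ Run7.h702.CL.Qs (fun n => ¬ Good ε W n) c) := by
  have h := (win ε hε W).few0_double
  have e : (fun n : ℕ => ¬ (fun v => Good ε W (v / 2)) (2 * n)) = fun n => ¬ Good ε W n := by
    funext n
    have : 2 * n / 2 = n := by omega
    simp only [this]
  rw [e] at h
  simpa only [Nat.cast_one] using h

/-- For all `ε > 0` and all `A`, `B`, `W` there is a `y₀` such that for all `y ≥ y₀` and all `N` at most
`N / (log y)^A` of the positive integers `m ≤ N` are exceptional with respect to `y`. -/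
theorem divisors (ε : ℝ) (hε : 0 < ε) (A B W : ℕ) :
    ∃ y₀ : ℕ, ∀ y : ℕ, y₀ ≤ y → ∀ N : ℕ,
      ({m : ℕ | 1 ≤ m ∧ m ≤ N ∧ Exceptional ε B W y m}.ncard : ℝ) ≤ (N : ℝ) / Real.log y ^ A := by
  have hQ : ∃ n₀ : ℕ, ∀ n : ℕ, n₀ ≤ n → 2 ∣ n → Pool.Agent.W93.PG.WinP ε W n →
      (fun v => Good ε W (v / 2)) n := by
    refine ⟨0, fun n _ h2 hw => ?_⟩
    obtain ⟨k, rfl⟩ := h2
    have hk : 2 * k / 2 = k := by omega
    simp only [hk]
    exact good_of_WinP ε W k hw
  obtain ⟨y₀, hy₀⟩ := Run7.h702.DV.pair_bound _ (Run7.h702.DV.gold_H1 _ ε hε W hQ)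
    (Run7.h702.DV.gold_H2 _ ε hε W hQ) A B
  refine ⟨y₀, fun y hy N => le_trans ?_ (hy₀ y hy N)⟩
  have hsub : {m : ℕ | 1 ≤ m ∧ m ≤ N ∧ Exceptional ε B W y m} ⊆
      {m : ℕ | 1 ≤ m ∧ m ≤ N ∧
        Run7.h702.DV.PairBad (fun n => 2 ∣ n ∧ ¬ (fun v => Good ε W (v / 2)) n) B y m} := by
    rintro m ⟨h1, h2, d₁, d₂, h3, h4, h5, α, β, c, h6, h7, h8, h9, h10, h11, n, h12, h13, h14⟩
    refine ⟨h1, h2, d₁, d₂, h3, h4, h5, α, β, c, h6, h7, h8, h9, h10, h11, by omega, ?_⟩
    have h15 : (α * d₁ + β * d₂ + c).toNat = 2 * n := by omega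
    rw [h15]
    refine ⟨⟨n, rfl⟩, ?_⟩
    have hk : 2 * n / 2 = n := by omega
    simp only [hk]
    exact h14
  have hfin : {m : ℕ | 1 ≤ m ∧ m ≤ N ∧
        Run7.h702.DV.PairBad (fun n => 2 ∣ n ∧ ¬ (fun v => Good ε W (v / 2)) n) B y m}.Finite :=
    (Set.finite_Iic N).subset fun m hm => hm.2.1
  exact_mod_cast Set.ncard_le_ncard hsub hfin

open Classical in
/-- (1) All but at most `K N / (log Y)^A` of the positive integers `m ≤ N` satisfy: the Collatz trajectory of `m` takes a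
value smaller than `Y`, and all its terms before it and their multiples `u t`, `1 ≤ u ≤ (log t)^U`, are good. (2) For every
`f → ∞` this is true for almost all `m`, with `Y = f m`. (3) The sums of two divisors. -/
theorem result (ε : ℝ) (hε : 0 < ε) (W : ℕ) :
    (∀ A U : ℕ, ∃ K : ℝ, 0 < K ∧ ∀ Y : ℝ, 2 ≤ Y → ∀ N : ℕ,
      (((Icc 1 N).filter (fun m : ℕ => ¬ AllTermsGood ε W U Y m)).card : ℝ) ≤ K * N / Real.log Y ^ A) ∧
    (∀ (U : ℕ) (f : ℕ → ℝ), Tendsto f atTop atTop →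
      Tendsto (fun N : ℕ => (((Icc 1 N).filter (fun m : ℕ => AllTermsGood ε W U (f m) m)).card : ℝ) / N) atTop (𝓝 1)) ∧
    (∀ A B : ℕ, ∃ y₀ : ℕ, ∀ y : ℕ, y₀ ≤ y → ∀ N : ℕ,
      ({m : ℕ | 1 ≤ m ∧ m ≤ N ∧ Exceptional ε B W y m}.ncard : ℝ) ≤ (N : ℝ) / Real.log y ^ A) := by
  refine ⟨fun A U => ?_, fun U f hf => ?_, fun A B => divisors ε hε A B W⟩
  · exact Run7.h702.AT.all_prop (θ := 2 / 3) (by norm_num) (P := Good ε W) (fun _ => Iff.rfl) 1 le_rfl (few ε hε W) A U
  · exact Run7.h702.AT.all_prop_almost (θ := 2 / 3) (by norm_num) (P := Good ε W) (fun _ => Iff.rfl) 1 le_rfl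
      (few ε hε W) U f hf

end Pool.Agent.Results.MP_967f73_nt.SumsOfTwoDivisors
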